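import Mathlib
import Pool.Agent.MP_e3615c_an.Closed

namespace Pool.Agent.Results.MP_e3615c_an.ClosedForm

open Pool.Agent.MP_e3615c_an

/-- Closed form of the best exponent `α_m(p)` for all `m ≥ 1` and `0 < p ≤ 1`. -/
theorem result (m : ℕ) (hm : 1 ≤ m) (p : ℝ) (hp : 0 < p) (hp1 : p ≤ 1) :
    IsGLB {α : ℝ | Admissible m p α}
      (if p ≤ 1 / 4 then -1 / 2
      else if p ≤ 3 / 4 then -1 / 2 + (4 * p - 1) / 2 * ((4 * p - 1) / (4 * p + 1)) ^ (2 * m)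
      else -1 / 2 + (p - 1 / 2) * ((4 * p - 1) / (4 * p + 1)) ^ (2 * (m - 1))) :=
  isGLB_closed hm hp hp1

end Pool.Agent.Results.MP_e3615c_an.ClosedForm
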