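import Mathlib
import Pool.Agent.MP_e3615c_an.Lower

namespace Pool.Agent.Results.MP_e3615c_an.Exact

open Pool.Agent.MP_e3615c_an

/-- The best exponent is `α_m(p) = -1/2 + γ_m(p)` for all `m ≥ 1`, `p > 0`. -/
theorem result (m : ℕ) (hm : 1 ≤ m) (p : ℝ) (hp : 0 < p) :
    IsGLB {α : ℝ | Admissible m p α} (-1 / 2 + gamma m p) :=
  isGLB_admissible hm hp

end Pool.Agent.Results.MP_e3615c_an.Exact
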